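import Pool.Agent.H94R3.RectMain

/-!
# Rectifiable `p`-spaces with countable Souslin number are Lindelöf
-/

set_option autoImplicit false

open Set Topology

namespace Pool.Agent.Results.MP_46c3d4_gt.RectifiableLindelof

open Pool.Agent.H94R3.Rect

universe u

/-- Every rectifiable `p`-space with countable Souslin number is Lindelöf. -/
theorem result (X : Type u) [TopologicalSpace X] (hr : Rectifiable X) (hp : PSpace X)
    (hc : CountableCellularity X) : LindelofSpace X :=
  lindelof hr hp hc

end Pool.Agent.Results.MP_46c3d4_gt.RectifiableLindelof
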